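import Pool.Agent.U14.UF.Jobs
import Pool.Agent.U14.UF.Bas

set_option autoImplicit false

/-!
# Project UF, job TR (helper186): transfer between `𝓞 K` and `R4`
-/

namespace Pool.Agent.U186.UF

open Pool.Agent.U14.UF Pool.Agent.U14.UF.R4 NumberField

/-- evaluation as a ring homomorphism -/
noncomputable def evH {l t : ℝ} (hl : l ^ 2 = 2 * l + 1) (ht : t ^ 2 = t + 1) : R4 →+* ℝ where
  toFun := ev l t
  map_one' := ev_one l t
  map_mul' := ev_mul hl ht
  map_zero' := ev_zero l t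
  map_add' := ev_add l t

section
variable {K : Type} [Field K] [NumberField K] (e : RingOfIntegers K ≃+* R4)

/-- embeddings of `K` from roots -/
theorem exists_emb {l t : ℝ} (hl : l ^ 2 = 2 * l + 1) (ht : t ^ 2 = t + 1) :
    ∃ φ : K →+* ℝ, ∀ x : RingOfIntegers K, φ (x : K) = ev l t (e x) := by
  have hinj : Function.Injective ((evH hl ht).comp (e : RingOfIntegers K →+* R4)) := by
    rw [injective_iff_map_eq_zero]
    intro x hx
    by_contra h0
    have h1 : e x ≠ 0 := by simpa using h0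
    exact ev_ne h1 hl ht hx
  refine ⟨IsFractionRing.lift (K := K) hinj, fun x => ?_⟩
  exact IsFractionRing.lift_algebraMap hinj x

theorem emb_eq (φ : K →+* ℝ) : ∃ l t : ℝ, l ^ 2 = 2 * l + 1 ∧ t ^ 2 = t + 1 ∧
    ∀ x : RingOfIntegers K, φ (x : K) = ev l t (e x) := by
  set ψ : R4 →+* ℝ := (φ.comp (algebraMap (RingOfIntegers K) K)).comp
    (e.symm : R4 →+* RingOfIntegers K) with hψ
  refine ⟨ψ lam, ψ tau, ?_, ?_, fun x => ?_⟩
  · have h : lam ^ 2 = 2 * lam + 1 := by decide
    have := congrArg ψ h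
    have h2 : ψ 2 = 2 := map_ofNat ψ 2
    rw [map_pow, map_add, map_mul, map_one, h2] at this
    exact this
  · have h : tau ^ 2 = tau + 1 := by decide
    have := congrArg ψ h
    simpa using this
  · have h1 : φ (x : K) = ψ (e x) := by simp [hψ]
    rw [h1]
    have h2 : e x = ((e x).a : R4) + ((e x).b : R4) * tau + ((e x).c : R4) * lam +
        ((e x).d : R4) * (lam * tau) := by
      ext <;> simp [lam, tau]
    rw [h2, map_add, map_add, map_add, map_mul, map_mul, map_mul, map_mul, map_intCast,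
      map_intCast, map_intCast, map_intCast, ← h2]
    rfl

theorem pos_e {x : RingOfIntegers K} (h : ∀ φ : K →+* ℝ, 0 < φ (x : K)) : Pos (e x) := by
  intro l t hl ht
  obtain ⟨φ, hφ⟩ := exists_emb e hl ht
  rw [← hφ]; exact h φ

end

theorem part1 (hKB : S_KB) (hDIR : S_DIR) : S_DIRR := by
  obtain ⟨K, iF, iN, -, -, -, hTR, ⟨e⟩⟩ := hKB
  intro m hm
  obtain ⟨π, hπ, hpr, hdvd⟩ := hDIR K (e.symm m) (by simpa using hm)
  refine ⟨e π, pos_e e hπ, (MulEquiv.prime_iff e.toMulEquiv).2 hpr, ?_⟩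
  have := map_dvd e hdvd
  simpa using this

/-- `2 ∣ w²` implies `√2 ∣ w` -/
theorem s2_dvd_of_sq {w u : R4} (h : w ^ 2 = 2 * u) : s2 ∣ w := by
  have h1 : s2 ∣ w * w := ⟨s2 * u, by rw [← sq, h, ← mul_assoc, s2_sq]⟩
  rcases s2_prime_aux w w h1 with h2 | h2 <;> exact h2

theorem form_rep {α P Q S : R4} (h : P ^ 2 + Q ^ 2 + S ^ 2 = 2 * α) :
    ∃ x y z : R4, x ^ 2 + s2 * x * y + y ^ 2 + y * z + z ^ 2 = α := by
  obtain ⟨r, hr⟩ := s2_dvd_of_sq (w := P + Q + S) (u := α + P * Q + Q * S + P * S) (by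
    linear_combination h)
  refine ⟨r - s2 * Q, Q - S, S, ?_⟩
  have h2 : (2 : R4) ≠ 0 := by decide
  refine mul_left_cancel₀ h2 ?_
  have hs := s2_sq
  rw [← h]
  have hP : s2 * (r - s2 * Q) + (Q - S) = P := by linear_combination -hr - Q * hs
  have : 2 * ((r - s2 * Q) ^ 2 + s2 * (r - s2 * Q) * (Q - S) + (Q - S) ^ 2 + (Q - S) * S + S ^ 2) =
      (s2 * (r - s2 * Q) + (Q - S)) ^ 2 + Q ^ 2 + S ^ 2 := by
    linear_combination (-(r - s2 * Q) ^ 2) * hs
  rw [this, hP]

theorem part2 (hKB : S_KB) (hM : S_MAIN) : S_FIN := by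
  obtain ⟨K, iF, iN, hfin, hgal, hexp, hTR, ⟨e⟩⟩ := hKB
  refine ⟨K, iF, iN, hfin, hgal, hexp, hTR, !![1, e.symm s2, 0; 0, 1, 1; 0, 0, 1], ?_, ?_⟩
  · intro φ x hx
    set s : ℝ := φ ((e.symm s2 : RingOfIntegers K) : K) with hs
    have hs2 : s * s = 2 := by
      have h1 : e.symm s2 * e.symm s2 = 2 := by
        rw [← map_mul, s2_sq]; exact map_ofNat e.symm 2
      have h2 : φ (algebraMap (RingOfIntegers K) K (e.symm s2 * e.symm s2)) =
          φ (algebraMap (RingOfIntegers K) K 2) := by rw [h1]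
      rw [map_mul, map_mul, map_ofNat, map_ofNat] at h2
      exact h2
    simp [Fin.sum_univ_three, Matrix.of_apply, Matrix.cons_val_zero, Matrix.cons_val_one]
    rw [← hs]
    have hne : x 0 ≠ 0 ∨ x 1 ≠ 0 ∨ x 2 ≠ 0 := by
      by_contra hcon
      push Not at hcon
      apply hx
      ext i; fin_cases i
      · exact hcon.1
      · exact hcon.2.1
      · exact hcon.2.2
    have key : 2 * (x 0 * x 0 + s * x 0 * x 1 + x 1 * x 1 + x 1 * x 2 + x 2 * x 2) =
        (s * x 0 + x 1) ^ 2 + (x 1 + x 2) ^ 2 + x 2 ^ 2 := by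
      linear_combination (-(x 0) ^ 2) * hs2
    have hpos : 0 < (s * x 0 + x 1) ^ 2 + (x 1 + x 2) ^ 2 + x 2 ^ 2 := by
      by_contra hle
      have h1 := sq_nonneg (s * x 0 + x 1)
      have h2 := sq_nonneg (x 1 + x 2)
      have h3 := sq_nonneg (x 2)
      have e3 : x 2 = 0 := by
        have : x 2 ^ 2 = 0 := by linarith
        exact pow_eq_zero_iff (two_ne_zero) |>.1 this
      have e2 : x 1 = 0 := by
        have : (x 1 + x 2) ^ 2 = 0 := by linarith
        have := pow_eq_zero_iff (two_ne_zero) |>.1 this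
        linarith
      have e1 : x 0 = 0 := by
        have : (s * x 0 + x 1) ^ 2 = 0 := by linarith
        have h4 := pow_eq_zero_iff (two_ne_zero) |>.1 this
        rw [e2, add_zero] at h4
        rcases mul_eq_zero.1 h4 with h5 | h5
        · rw [h5] at hs2; norm_num at hs2
        · exact h5
      rcases hne with h | h | h
      · exact h e1
      · exact h e2
      · exact h e3
    nlinarith
  · intro α hα
    obtain ⟨P, Q, S, hPQS⟩ := hM (e α) (pos_e e hα)
    obtain ⟨x, y, z, hxyz⟩ := form_rep hPQS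
    refine ⟨![e.symm x, e.symm y, e.symm z], ?_⟩
    apply e.injective
    rw [← hxyz]
    simp [Fin.sum_univ_three, Matrix.of_apply]
    ring

/-- Job TR. -/
theorem t_TR : S_TR := fun hKB => ⟨part1 hKB, part2 hKB⟩

end Pool.Agent.U186.UF
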